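import Pool.Agent.Lib.MP_b1a3a4_al.MVS.Interfaces

/-!
# Module RSEQ of project MVS: the ring of sequences modulo sequences tending to infinity
-/

set_option linter.all false

namespace Pool.Agent.Lib.MP_b1a3a4_al.MVS.H69

open Finsupp Pool.Agent.Lib.MP_b1a3a4_al.MVS

variable {k G : Type} [CommRing k] [Group G] (χ : Chr G)

/-- all positions of `x` are `≥ a` -/
def lb (a : ℝ) (x : MonoidAlgebra k G) : Prop := ∀ g ∈ x.coeff.support, a ≤ val χ g

lemma lb_zero (a : ℝ) : lb χ a (0 : MonoidAlgebra k G) := by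
  intro g hg
  simp at hg

lemma lb_mono {a b : ℝ} (h : a ≤ b) {x : MonoidAlgebra k G} (hx : lb χ b x) : lb χ a x :=
  fun g hg => h.trans (hx g hg)

lemma lb_add {a : ℝ} {x y : MonoidAlgebra k G} (hx : lb χ a x) (hy : lb χ a y) :
    lb χ a (x + y) := by
  classical
  intro g hg
  have h1 : g ∈ x.coeff.support ∪ y.coeff.support := by
    have : (x + y).coeff = x.coeff + y.coeff := rfl
    rw [this] at hg
    exact Finsupp.support_add hg
  rcases Finset.mem_union.1 h1 with h | h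
  · exact hx g h
  · exact hy g h

lemma lb_neg {a : ℝ} {x : MonoidAlgebra k G} (hx : lb χ a x) : lb χ a (-x) := by
  intro g hg
  have : (-x).coeff = -x.coeff := rfl
  rw [this, Finsupp.support_neg] at hg
  exact hx g hg

lemma lb_sub {a : ℝ} {x y : MonoidAlgebra k G} (hx : lb χ a x) (hy : lb χ a y) :
    lb χ a (x - y) := by
  rw [sub_eq_add_neg]
  exact lb_add χ hx (lb_neg χ hy)

lemma lb_single (g : G) (c : k) : lb χ (val χ g) (MonoidAlgebra.single g c) := by
  intro h hh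
  have h1 : (MonoidAlgebra.single g c).coeff = Finsupp.single g c := rfl
  rw [h1] at hh
  have := Finsupp.support_single_subset hh
  rw [Finset.mem_singleton.1 this]

lemma lb_mul {a b : ℝ} {x y : MonoidAlgebra k G} (hx : lb χ a x) (hy : lb χ b y) :
    lb χ (a + b) (x * y) := by
  classical
  intro g hg
  have h1 := MonoidAlgebra.support_coeff_mul_subset x y hg
  obtain ⟨u, hu, v, hv, rfl⟩ := Finset.mem_mul.1 h1
  rw [val_mul]
  exact add_le_add (hx u hu) (hy v hv)

lemma lb_bdd (x : MonoidAlgebra k G) : ∃ c : ℝ, lb χ c x := by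
  classical
  by_cases h : x.coeff.support.Nonempty
  · refine ⟨x.coeff.support.inf' h (fun g => val χ g), fun g hg => ?_⟩
    exact Finset.inf'_le _ hg
  · refine ⟨0, fun g hg => ?_⟩
    exact (h ⟨g, hg⟩).elim

lemma lb_sum {ι : Type} {a : ℝ} (s : Finset ι) (f : ι → MonoidAlgebra k G)
    (hf : ∀ i ∈ s, lb χ a (f i)) : lb χ a (∑ i ∈ s, f i) := by
  classical
  induction s using Finset.induction_on with
  | empty => simpa using lb_zero χ a
  | insert i s hi ih =>
    rw [Finset.sum_insert hi]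
    exact lb_add χ (hf i (Finset.mem_insert_self _ _))
      (ih (fun j hj => hf j (Finset.mem_insert_of_mem hj)))

lemma lb_one : lb χ 0 (1 : MonoidAlgebra k G) := by
  have := lb_single χ (1 : G) (1 : k)
  rw [val_one] at this
  exact this

/-- the ring of bounded sequences -/
def U : Subring (ℕ → MonoidAlgebra k G) where
  carrier := {u | ∃ c : ℝ, ∀ i, lb χ c (u i)}
  zero_mem' := ⟨0, fun _ => lb_zero χ 0⟩
  one_mem' := ⟨0, fun _ => lb_one χ⟩
  add_mem' := by
    rintro u v ⟨c, hc⟩ ⟨c', hc'⟩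
    exact ⟨min c c', fun i => lb_add χ (lb_mono χ (min_le_left _ _) (hc i))
      (lb_mono χ (min_le_right _ _) (hc' i))⟩
  mul_mem' := by
    rintro u v ⟨c, hc⟩ ⟨c', hc'⟩
    exact ⟨c + c', fun i => lb_mul χ (hc i) (hc' i)⟩
  neg_mem' := by
    rintro u ⟨c, hc⟩
    exact ⟨c, fun i => lb_neg χ (hc i)⟩

/-- sequences tending to infinity -/
def Inf (u : ℕ → MonoidAlgebra k G) : Prop := ∀ T : ℝ, ∃ i₀, ∀ i, i₀ ≤ i → lb χ T (u i)

lemma inf_zero : Inf χ (0 : ℕ → MonoidAlgebra k G) := fun T => ⟨0, fun i _ => lb_zero χ T⟩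

lemma inf_add {u v : ℕ → MonoidAlgebra k G} (hu : Inf χ u) (hv : Inf χ v) : Inf χ (u + v) := by
  intro T
  obtain ⟨i, hi⟩ := hu T
  obtain ⟨j, hj⟩ := hv T
  exact ⟨max i j, fun l hl => lb_add χ (hi l (le_trans (le_max_left _ _) hl))
    (hj l (le_trans (le_max_right _ _) hl))⟩

lemma inf_neg {u : ℕ → MonoidAlgebra k G} (hu : Inf χ u) : Inf χ (-u) := by
  intro T
  obtain ⟨i, hi⟩ := hu T
  exact ⟨i, fun l hl => lb_neg χ (hi l hl)⟩

lemma inf_mul_left {u v : ℕ → MonoidAlgebra k G} (hu : u ∈ U (k := k) χ) (hv : Inf χ v) :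
    Inf χ (u * v) := by
  intro T
  obtain ⟨c, hc⟩ := hu
  obtain ⟨i, hi⟩ := hv (T - c)
  exact ⟨i, fun l hl => lb_mono χ (by linarith) (lb_mul χ (hc l) (hi l hl))⟩

lemma inf_mul_right {u v : ℕ → MonoidAlgebra k G} (hu : Inf χ u) (hv : v ∈ U (k := k) χ) :
    Inf χ (u * v) := by
  intro T
  obtain ⟨c, hc⟩ := hv
  obtain ⟨i, hi⟩ := hu (T - c)
  exact ⟨i, fun l hl => lb_mono χ (by linarith) (lb_mul χ (hi l hl) (hc l))⟩

/-- the congruence modulo sequences tending to infinity -/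
def con (k : Type) {G : Type} [CommRing k] [Group G] (χ : Chr G) : RingCon (U (k := k) χ) where
  r u v := Inf χ ((u : ℕ → MonoidAlgebra k G) - (v : ℕ → MonoidAlgebra k G))
  iseqv := by
    refine ⟨fun u => ?_, fun {u v} h => ?_, fun {u v w} h h' => ?_⟩
    · rw [sub_self]; exact inf_zero χ
    · rw [← neg_sub]; exact inf_neg χ h
    · have := inf_add χ h h'
      rwa [sub_add_sub_cancel] at this
  add' := by
    intro u v u' v' h h'
    have := inf_add χ h h'
    have e : (((u + u' : U (k := k) χ)) : ℕ → MonoidAlgebra k G) -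
        ((v + v' : U (k := k) χ) : ℕ → MonoidAlgebra k G) =
        ((u : ℕ → MonoidAlgebra k G) - (v : ℕ → MonoidAlgebra k G)) +
          ((u' : ℕ → MonoidAlgebra k G) - (v' : ℕ → MonoidAlgebra k G)) := by
      rw [Subring.coe_add, Subring.coe_add]
      abel
    show Inf χ (((u + u' : U (k := k) χ) : ℕ → MonoidAlgebra k G) -
        ((v + v' : U (k := k) χ) : ℕ → MonoidAlgebra k G))
    rw [e]
    exact this
  mul' := by
    intro u v u' v' h h'
    have := inf_add χ (inf_mul_right χ h u'.2) (inf_mul_left χ v.2 h')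
    have e : (((u * u' : U (k := k) χ)) : ℕ → MonoidAlgebra k G) -
        ((v * v' : U (k := k) χ) : ℕ → MonoidAlgebra k G) =
        ((u : ℕ → MonoidAlgebra k G) - (v : ℕ → MonoidAlgebra k G)) * u' +
          v * ((u' : ℕ → MonoidAlgebra k G) - (v' : ℕ → MonoidAlgebra k G)) := by
      rw [Subring.coe_mul, Subring.coe_mul]
      noncomm_ring
    show Inf χ (((u * u' : U (k := k) χ) : ℕ → MonoidAlgebra k G) -
        ((v * v' : U (k := k) χ) : ℕ → MonoidAlgebra k G))
    rw [e]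
    exact this

/-- the ring `R(G,χ)` -/
abbrev RR (k : Type) {G : Type} [CommRing k] [Group G] (χ : Chr G) : Type := (con k χ).Quotient

/-- the quotient map -/
noncomputable abbrev mk (k : Type) {G : Type} [CommRing k] [Group G] (χ : Chr G) :
    U (k := k) χ →+* RR k χ := (con k χ).mk'

lemma mk_surj : Function.Surjective (mk k χ) := RingCon.mk'_surjective _

lemma mk_eq {u v : U (k := k) χ} : mk k χ u = mk k χ v ↔
    Inf χ ((u : ℕ → MonoidAlgebra k G) - (v : ℕ → MonoidAlgebra k G)) := RingCon.eq _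

/-- constant sequences -/
def cst (k : Type) {G : Type} [CommRing k] [Group G] (χ : Chr G) :
    MonoidAlgebra k G →+* U (k := k) χ where
  toFun a := ⟨fun _ => a, by
    obtain ⟨c, hc⟩ := lb_bdd χ a
    exact ⟨c, fun _ => hc⟩⟩
  map_zero' := rfl
  map_one' := rfl
  map_add' _ _ := rfl
  map_mul' _ _ := rfl

/-- the valuation predicate -/
def VV (a : ℝ) (r : RR k χ) : Prop :=
  ∃ u : U (k := k) χ, mk k χ u = r ∧ ∀ i, lb χ a ((u : ℕ → MonoidAlgebra k G) i)

/-- evaluation -/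
def ev (k : Type) {G : Type} [CommRing k] [Group G] (χ : Chr G) (i : ℕ) :
    U (k := k) χ →+* MonoidAlgebra k G where
  toFun u := (u : ℕ → MonoidAlgebra k G) i
  map_zero' := rfl
  map_one' := rfl
  map_add' _ _ := rfl
  map_mul' _ _ := rfl

lemma lb_pow {X : Type} [Fintype X] [DecidableEq X] (B : Matrix X X (MonoidAlgebra k G)) (δ : ℝ)
    (hB : ∀ x y, lb χ δ (B x y)) (n : ℕ) : ∀ x y, lb χ (n * δ) ((B ^ n) x y) := by
  induction n with
  | zero =>
    intro x y
    simp only [Nat.cast_zero, zero_mul, pow_zero]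
    rw [Matrix.one_apply]
    split_ifs
    · exact lb_one χ
    · exact lb_zero χ 0
  | succ n ih =>
    intro x y
    rw [pow_succ, Matrix.mul_apply]
    apply lb_sum
    intro z _
    have := lb_mul χ (ih x z) (hB z y)
    refine lb_mono χ ?_ this
    push_cast
    linarith

lemma inv_aux {X : Type} [Fintype X] [DecidableEq X] (B : Matrix X X (RR k χ)) (δ : ℝ)
    (hδ : 0 < δ) (hB : ∀ x y, VV χ δ (B x y)) : IsUnit (1 - B) := by
  classical
  choose b hb hlb using hB
  let B' : Matrix X X (U (k := k) χ) := Matrix.of b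
  have hB' : (mk k χ).mapMatrix B' = B := by
    ext x y
    simp only [RingHom.mapMatrix_apply, Matrix.map_apply, B', Matrix.of_apply]
    exact hb x y
  -- evaluations
  let Bi : ℕ → Matrix X X (MonoidAlgebra k G) := fun i => (ev k χ i).mapMatrix B'
  have hBi : ∀ i x y, lb χ δ (Bi i x y) := by
    intro i x y
    exact hlb x y i
  let Ci : ℕ → Matrix X X (MonoidAlgebra k G) := fun i => ∑ j ∈ Finset.range (i + 1), Bi i ^ j
  have hCi : ∀ i x y, lb χ 0 (Ci i x y) := by
    intro i x y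
    have : Ci i x y = ∑ j ∈ Finset.range (i + 1), (Bi i ^ j) x y := by
      simp only [Ci, Matrix.sum_apply]
    rw [this]
    apply lb_sum
    intro j _
    refine lb_mono χ ?_ (lb_pow χ (Bi i) δ (hBi i) j x y)
    positivity
  let C' : Matrix X X (U (k := k) χ) := Matrix.of fun x y =>
    ⟨fun i => Ci i x y, ⟨0, fun i => hCi i x y⟩⟩
  have hC' : ∀ i, (ev k χ i).mapMatrix C' = Ci i := by
    intro i
    ext x y
    rfl
  -- an element of `Matrix X X U` whose evaluations are `1 - Bi^(i+1)` is mapped to `1`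
  have key : ∀ D : Matrix X X (U (k := k) χ),
      (∀ i, (ev k χ i).mapMatrix D = 1 - Bi i ^ (i + 1)) → (mk k χ).mapMatrix D = 1 := by
    intro D hD
    have h1 : (1 : Matrix X X (RR k χ)) = (mk k χ).mapMatrix 1 := (map_one _).symm
    rw [h1]
    ext x y
    simp only [RingHom.mapMatrix_apply, Matrix.map_apply]
    rw [mk_eq]
    intro T
    obtain ⟨i₀, hi₀⟩ := exists_nat_gt (T / δ)
    refine ⟨i₀, fun i hi => ?_⟩
    have e : ((D x y : ℕ → MonoidAlgebra k G) - (((1 : Matrix X X (U (k := k) χ)) x y :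
        U (k := k) χ) : ℕ → MonoidAlgebra k G)) i = -((Bi i ^ (i + 1)) x y) := by
      have h2 := congrFun (congrFun (hD i) x) y
      have h3 : (ev k χ i).mapMatrix D x y = (D x y : ℕ → MonoidAlgebra k G) i := rfl
      have h4 : (ev k χ i).mapMatrix (1 : Matrix X X (U (k := k) χ)) x y =
        (((1 : Matrix X X (U (k := k) χ)) x y : U (k := k) χ) : ℕ → MonoidAlgebra k G) i := rfl
      rw [map_one] at h4
      rw [Pi.sub_apply, ← h3, ← h4, h2, Matrix.sub_apply]
      abel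
    rw [e]
    apply lb_neg
    refine lb_mono χ ?_ (lb_pow χ (Bi i) δ (hBi i) (i + 1) x y)
    have h5 : (i₀ : ℝ) ≤ i := by exact_mod_cast hi
    have h6 : T < i₀ * δ := by
      rwa [div_lt_iff₀ hδ] at hi₀
    push_cast
    nlinarith
  have hl : (mk k χ).mapMatrix ((1 - B') * C') = 1 := by
    apply key
    intro i
    rw [map_mul, map_sub, map_one, hC']
    exact mul_neg_geom_sum (Bi i) (i + 1)
  have hr : (mk k χ).mapMatrix (C' * (1 - B')) = 1 := by
    apply key
    intro i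
    rw [map_mul, map_sub, map_one, hC']
    exact geom_sum_mul_neg (Bi i) (i + 1)
  rw [map_mul, map_sub, map_one, hB'] at hl hr
  exact ⟨⟨1 - B, (mk k χ).mapMatrix C', hl, hr⟩, rfl⟩

/-- the Novikov type ring -/
noncomputable def nov (k : Type) {G : Type} [CommRing k] [Group G] (χ : Chr G) :
    NovRing k G χ where
  R := RR k χ
  ι := (mk k χ).comp (cst k χ)
  V := VV χ
  V_zero := fun a => ⟨0, map_zero _, fun i => lb_zero χ a⟩
  V_mono := by
    rintro a b r h ⟨u, hu, hl⟩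
    exact ⟨u, hu, fun i => lb_mono χ h (hl i)⟩
  V_add := by
    rintro a r r' ⟨u, hu, hl⟩ ⟨u', hu', hl'⟩
    exact ⟨u + u', by rw [map_add, hu, hu'], fun i => lb_add χ (hl i) (hl' i)⟩
  V_neg := by
    rintro a r ⟨u, hu, hl⟩
    exact ⟨-u, by rw [map_neg, hu], fun i => lb_neg χ (hl i)⟩
  V_mul := by
    rintro a b r r' ⟨u, hu, hl⟩ ⟨u', hu', hl'⟩
    exact ⟨u * u', by rw [map_mul, hu, hu'], fun i => lb_mul χ (hl i) (hl' i)⟩
  V_ι := fun g c => ⟨cst k χ (MonoidAlgebra.single g c), rfl, fun i => lb_single χ g c⟩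
  V_bdd := by
    intro r
    obtain ⟨u, rfl⟩ := mk_surj χ r
    obtain ⟨c, hc⟩ := u.2
    exact ⟨c, u, rfl, hc⟩
  inv := fun X _ _ B δ hδ hB => inv_aux χ B δ hδ hB

theorem rseq : RseqStatement := by
  intro k G _ _ χ
  refine ⟨nov k χ, fun u r => ∃ h : u ∈ U (k := k) χ, mk k χ ⟨u, h⟩ = r, ?_, ?_, ?_, ?_, ?_⟩
  · intro r
    obtain ⟨u, hu⟩ := mk_surj χ r
    exact ⟨u, u.2, hu⟩
  · intro a
    exact ⟨(cst k χ a).2, rfl⟩
  · rintro u u' r r' ⟨h, e⟩ ⟨h', e'⟩
    refine ⟨(U (k := k) χ).add_mem h h', ?_⟩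
    rw [← e, ← e']
    exact map_add (mk k χ) ⟨u, h⟩ ⟨u', h'⟩
  · rintro u u' r r' ⟨h, e⟩ ⟨h', e'⟩
    refine ⟨(U (k := k) χ).mul_mem h h', ?_⟩
    rw [← e, ← e']
    exact map_mul (mk k χ) ⟨u, h⟩ ⟨u', h'⟩
  · rintro u ⟨h, e⟩ T
    have e' : mk k χ ⟨u, h⟩ = mk k χ 0 := by
      rw [map_zero]
      exact e
    rw [mk_eq] at e'
    obtain ⟨i₀, hi₀⟩ := e' T
    refine ⟨i₀, fun i hi g hg => hi₀ i hi g ?_⟩
    have : ((⟨u, h⟩ : U (k := k) χ) : ℕ → MonoidAlgebra k G) -
        ((0 : U (k := k) χ) : ℕ → MonoidAlgebra k G) = u := by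
      simp
    rw [this]
    exact hg

end Pool.Agent.Lib.MP_b1a3a4_al.MVS.H69
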